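import Pool.Agent.H.MP_676d90_ag.F

set_option autoImplicit false

namespace Pool.Agent.Results.MP_676d90_ag.Collinear

open Pool.Agent.H.MP_676d90_ag

theorem result (m r : ℕ) : ∃ Y0 : Finset (PP (m + 1)), Y0.card = r ∧
    (∀ d, H2 Y0 d = min (d + 1) (2 * r) + m * min d r) ∧
    ∀ Y : Finset (PP (m + 1)), Y.card = r → ∀ d, H2 Y0 d ≤ H2 Y d := by
  classical
  let T : Finset ℂ := (Finset.range r).image Nat.cast
  have hT : T.card = r := by rw [Finset.card_image_of_injective _ Nat.cast_injective, Finset.card_range]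
  have hc : (T.image (cpt m)).card = r := by rw [Finset.card_image_of_injective _ cpt_inj, hT]
  have u := upC (m := m) T
  rw [hT] at u
  have l := fun (Y : Finset (PP (m + 1))) (h : Y.card = r) d => h ▸ lowY Y d
  exact ⟨_, hc, fun d => le_antisymm (u d) (l _ hc d), fun Y h d => (u d).trans (l Y h d)⟩

end Pool.Agent.Results.MP_676d90_ag.Collinear
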