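import Pool.Agent.H.MP_676d90_ag.E

set_option autoImplicit false

namespace Pool.Agent.Results.MP_676d90_ag.GenericSupport

open Pool.Agent.H.MP_676d90_ag

/-- Hilbert functions of the double points supported on `r` points of `P^n` that have the generic
Hilbert function. -/
def Fam (n r : ℕ) : Set (ℕ → ℕ) :=
  {h | ∃ Y : Finset (PP n), Y.card = r ∧ (∀ d, H1 Y d = min ((d + n).choose n) r) ∧ h = H2 Y}

theorem result : (Fam 3 7).Nonempty ∧
    ¬ ∃ h0 ∈ Fam 3 7, ∀ h ∈ Fam 3 7, ∀ d, 1 ≤ d → h0 d ≤ h d := by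
  have a : H2 cA.Y ∈ Fam 3 7 := ⟨_, cA.card, cA.gen, rfl⟩
  have b : H2 cB.Y ∈ Fam 3 7 := ⟨_, cB.card, cB.gen, rfl⟩
  refine ⟨⟨_, a⟩, ?_⟩
  rintro ⟨_, ⟨Y, h0, h1, rfl⟩, h⟩
  have := key h0 (h1 1) (h1 2) ((h _ a 3 (by decide)).trans HA)
  have := (h _ b 4 (by decide)).trans HB
  omega

end Pool.Agent.Results.MP_676d90_ag.GenericSupport
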